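import Mathlib
import Pool.Agent.H31.KReg2

set_option autoImplicit false

namespace Pool.Agent.Results.MP_0f6055_nt.Full

/-- `b^{(R)}_m = 1`: every maximal block of consecutive `0`s in the binary expansion of `m` has
length divisible by `R`. Such a block occupies the bit positions `i, …, j-1`, where bit `j` is `1`
and either `i = 0` or bit `i-1` is `1`. (For `m = 0` the condition is vacuous.) -/
def BS (R m : ℕ) : Prop :=
  ∀ i j : ℕ, i < j → (i = 0 ∨ m.testBit (i - 1) = true) → m.testBit j = true →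
    (∀ l, i ≤ l → l < j → m.testBit l = false) → R ∣ j - i

/-- `h^{(R)}_n`: increasing enumeration of the zeros of the generalized Baum-Sweet sequence. -/
noncomputable def h (R n : ℕ) : ℕ := Nat.nth (fun m => ¬ BS R m) n

/-- `k`-regular: the `ℤ`-span of the `k`-kernel is finitely generated. -/
def KRegular (k : ℕ) (a : ℕ → ℤ) : Prop :=
  (Submodule.span ℤ {f : ℕ → ℤ | ∃ e r : ℕ, r < k ^ e ∧ f = fun n => a (k ^ e * n + r)}).FG

lemma tb1 (n l : ℕ) : (2 * n + 1).testBit (l + 1) = n.testBit l := by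
  rw [Nat.testBit_add_one, show (2 * n + 1) / 2 = n by omega]

lemma tb2 (a n l : ℕ) : (2 ^ a * n).testBit (l + a) = n.testBit l := by
  rw [Nat.testBit_two_pow_mul]
  simp

lemma tb3 (a n l : ℕ) (hl : l < a) : (2 ^ a * n).testBit l = false := by
  rw [Nat.testBit_two_pow_mul]
  simp only [Bool.and_eq_false_imp, decide_eq_true_eq]
  omega

lemma bs_odd (R n : ℕ) (hn : BS R (2 * n + 1)) : BS R n := by
  intro i j hij hi hj hl
  have := hn (i + 1) (j + 1) (by omega) (Or.inr (by
    rcases Nat.eq_zero_or_pos i with rfl | hi0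
    · simp
    · rcases hi with hi | hi
      · omega
      · rw [show i + 1 - 1 = (i - 1) + 1 by omega, tb1]; exact hi)) (by rw [tb1]; exact hj) (by
    intro l h1 h2
    rw [show l = (l - 1) + 1 by omega, tb1]
    exact hl _ (by omega) (by omega))
  rwa [show j + 1 - (i + 1) = j - i by omega] at this

lemma bs_pow (R n : ℕ) (hn : BS R (2 ^ R * n)) : BS R n := by
  intro i j hij hi hj hl
  rcases Nat.eq_zero_or_pos i with rfl | hi0
  · have := hn 0 (j + R) (by omega) (Or.inl rfl) (by rw [tb2]; exact hj) (by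
      intro l _ h2
      by_cases h0 : l < R
      · exact tb3 _ _ _ h0
      rw [show l = (l - R) + R by omega, tb2]
      exact hl _ (by omega) (by omega))
    rw [Nat.sub_zero] at this ⊢
    exact (Nat.dvd_add_self_right).mp this
  · have := hn (i + R) (j + R) (by omega) (Or.inr (by
      rcases hi with hi | hi
      · omega
      · rw [show i + R - 1 = (i - 1) + R by omega, tb2]; exact hi)) (by rw [tb2]; exact hj) (by
      intro l h1 h2
      rw [show l = (l - R) + R by omega, tb2]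
      exact hl _ (by omega) (by omega))
    rwa [show j + R - (i + R) = j - i by omega] at this

lemma not_bs_odd (R a n : ℕ) (ha : 0 < a) (haR : a < R) : ¬ BS R (2 ^ a * (2 * n + 1)) := by
  intro hn
  have := hn 0 (0 + a) (by omega) (Or.inl rfl) (by rw [tb2]; simp)
    (fun l _ h2 => tb3 _ _ _ (by omega))
  have := Nat.le_of_dvd (by omega) this
  omega

lemma not_bs_two (R m : ℕ) (hR : 2 ≤ R) (hm : m % 4 = 2) : ¬ BS R m := by
  have := not_bs_odd R 1 (m / 4) (by omega) (by omega)
  rwa [show 2 ^ 1 * (2 * (m / 4) + 1) = m by omega] at this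

lemma not_bs_gap (R t m : ℕ) (hR : 2 ≤ R) (h1 : 5 * 2 ^ t ≤ m) (h2 : m < 6 * 2 ^ t) :
    ¬ BS R m := by
  intro hn
  have hd : m / 2 ^ t = 5 := Nat.div_eq_of_lt_le (by omega) (by omega)
  have hb : ∀ l, m.testBit (l + t) = Nat.testBit 5 l := fun l => by
    rw [← Nat.testBit_div_two_pow, hd]
  have := hn (1 + t) (2 + t) (by omega) (Or.inr (by
    rw [show 1 + t - 1 = 0 + t by omega, hb]; decide))
    (by rw [hb]; decide) (by
      intro l h1 h2
      rw [show l = 1 + t by omega, hb]; decide)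
  rw [show 2 + t - (1 + t) = 1 by omega] at this
  have := Nat.le_of_dvd (by omega) this
  omega

lemma bs_top (R T : ℕ) (hT : R ∣ T) : BS R (3 * 2 ^ T) := by
  have hb : ∀ l, (3 * 2 ^ T).testBit l = true ↔ (l = T ∨ l = T + 1) := by
    intro l
    rw [Nat.testBit_mul_two_pow]
    simp only [Bool.and_eq_true, decide_eq_true_eq]
    constructor
    · rintro ⟨h1, h2⟩
      by_contra hh
      have h3 : 3 < 2 ^ (l - T) :=
        lt_of_lt_of_le (by norm_num : 3 < 2 ^ 2) (Nat.pow_le_pow_right (by norm_num) (by omega))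
      rw [Nat.testBit_lt_two_pow h3] at h2
      exact absurd h2 (by decide)
    · rintro (rfl | rfl)
      · exact ⟨le_rfl, by rw [Nat.sub_self]; decide⟩
      · exact ⟨by omega, by rw [show T + 1 - T = 1 by omega]; decide⟩
  intro i j hij hi hj hl
  rcases (hb j).mp hj with rfl | rfl
  · rcases hi with rfl | hi
    · exact hT
    · have := (hb _).mp hi
      omega
  · have h1 := hl T (by omega) (by omega)
    rw [(hb _).mpr (Or.inl rfl)] at h1
    exact absurd h1 (by decide)

open Classical in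
/-- auxiliary counts -/
noncomputable def Ec (R a x : ℕ) : ℕ := Nat.count (fun n => BS R (2 ^ a * n)) x

open Classical in
lemma count_two (R x : ℕ) : Nat.count (BS R) (2 * x) ≤ Nat.count (BS R) x + Ec R 1 x := by
  unfold Ec
  induction x with
  | zero => simp
  | succ x ih =>
    rw [show 2 * (x + 1) = 2 * x + 1 + 1 by ring]
    simp only [Nat.count_succ, pow_one] at ih ⊢
    have := bs_odd R x
    split_ifs <;> first | omega | (exfalso; tauto)

lemma Ec_step (R a x : ℕ) (ha : 0 < a) (haR : a < R) : Ec R a (2 * x) ≤ Ec R (a + 1) x := by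
  unfold Ec
  induction x with
  | zero => simp
  | succ x ih =>
    rw [show 2 * (x + 1) = 2 * x + 1 + 1 by ring]
    simp only [Nat.count_succ]
    have h2 := not_bs_odd R a x ha haR
    rw [show 2 ^ a * (2 * x) = 2 ^ (a + 1) * x by ring]
    split_ifs <;> omega

lemma Ec_iter (R j : ℕ) (hj : j + 1 ≤ R) : ∀ x, Ec R 1 (2 ^ j * x) ≤ Ec R (j + 1) x := by
  induction j with
  | zero => intro x; simp
  | succ j ih =>
    intro x
    rw [show 2 ^ (j + 1) * x = 2 ^ j * (2 * x) by ring]
    exact (ih (by omega) (2 * x)).trans (Ec_step R (j + 1) x (by omega) (by omega))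

open Classical in
lemma Ec_le (R j x : ℕ) (hj : j + 1 ≤ R) : Ec R 1 (2 ^ j * x) ≤ Nat.count (BS R) x := by
  obtain ⟨S, rfl⟩ : ∃ S, R = S + 1 := ⟨R - 1, by omega⟩
  have h1 : Ec (S + 1) 1 (2 ^ j * x) ≤ Ec (S + 1) 1 (2 ^ S * x) :=
    Nat.count_monotone _
      (Nat.mul_le_mul_right _ (Nat.pow_le_pow_right (by norm_num) (by omega)))
  refine h1.trans ((Ec_iter (S + 1) S le_rfl x).trans ?_)
  exact Nat.count_mono_left (fun n _ hn => bs_pow _ n hn)

open Classical in
lemma count_pow (R x j : ℕ) (hj : j ≤ R) :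
    Nat.count (BS R) (2 ^ j * x) ≤ (j + 1) * Nat.count (BS R) x := by
  induction j with
  | zero => simp
  | succ j ih =>
    have h1 := count_two R (2 ^ j * x)
    have h2 := Ec_le R j x hj
    have h3 := ih (by omega)
    rw [show 2 ^ (j + 1) * x = 2 * (2 ^ j * x) by ring, add_mul (j + 1), one_mul]
    omega

open Classical in
lemma count_sum (R x : ℕ) : Nat.count (fun m => ¬ BS R m) x + Nat.count (BS R) x = x := by
  induction x with
  | zero => simp
  | succ x ih =>
    simp only [Nat.count_succ]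
    split_ifs <;> omega

lemma inf_zero (R : ℕ) (hR : 2 ≤ R) : (Set.ofPred fun m => ¬ BS R m).Infinite := by
  refine Set.infinite_of_injective_forall_mem (f := fun n : ℕ => 4 * n + 2)
    (fun a b hab => by simp only at hab; omega) (fun n => ?_)
  exact not_bs_two R _ hR (by omega)

lemma h_gap (R n : ℕ) (hR : 2 ≤ R) : h R n < h R (n + 1) ∧ h R (n + 1) ≤ h R n + 4 := by
  refine ⟨Nat.nth_strictMono (inf_zero R hR) (by omega), ?_⟩
  by_contra hh
  push Not at hh
  have := Nat.le_nth_of_lt_nth_succ (p := fun m => ¬ BS R m) (k := n)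
    (a := 4 * ((h R n + 2) / 4) + 2) (by unfold h at hh ⊢; omega)
    (not_bs_two R _ hR (by omega))
  unfold h at hh this
  omega

lemma mod_iff (R n : ℕ) (hR : 2 ≤ R) :
    (((h R (n + 1) : ℤ) : ZMod 5) ≠ ((h R n : ℤ) : ZMod 5) + 1) ↔ h R (n + 1) ≠ h R n + 1 := by
  obtain ⟨h1, h2⟩ := h_gap R n hR
  obtain ⟨c, hc⟩ : ∃ c, h R (n + 1) = h R n + 1 + c := ⟨h R (n + 1) - h R n - 1, by omega⟩
  have hc3 : c ≤ 3 := by omega
  rw [hc]
  push_cast
  rw [ne_eq, add_eq_left, ne_eq, add_eq_left]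
  interval_cases c <;> decide

open Classical in
lemma count_back (R t i : ℕ) (hR : 2 ≤ R) (hi : i + 1 ≤ 2 ^ t) :
    Nat.count (fun m => ¬ BS R m) (6 * 2 ^ t - 1 - i) + i =
      Nat.count (fun m => ¬ BS R m) (6 * 2 ^ t - 1) := by
  induction i with
  | zero => simp
  | succ i ih =>
    rw [← ih (by omega), show 6 * 2 ^ t - 1 - i = (6 * 2 ^ t - 1 - (i + 1)) + 1 by omega,
      Nat.count_succ, if_pos (not_bs_gap R t _ hR (by omega) (by omega))]
    omega

theorem result (R : ℕ) (hR : 2 ≤ R) (k : ℕ) (hk : 2 ≤ k) :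
    ¬ KRegular k (fun n => (h R n : ℤ)) := by
  classical
  intro hreg
  have h1 := H31.KReg.Y_fin k hk (fun n => ((h R n : ℤ) : ZMod 5))
    (H31.KReg.ker_fin k (fun n => (h R n : ℤ)) hreg)
  obtain ⟨S, rfl⟩ : ∃ S, R = S + 1 := ⟨R - 1, by omega⟩
  have hS : S + 3 ≤ 2 ^ (S + 1) := by
    have : S < 2 ^ S := Nat.lt_two_pow_self
    rw [pow_succ]
    omega
  obtain ⟨g, hg⟩ : ∃ g, 2 ^ (S + 1) = g + 1 := ⟨2 ^ (S + 1) - 1, by omega⟩
  have hp : ∀ r, 0 < (g + 1) ^ r := fun r => by positivity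
  have ht : ∀ r, 2 ^ (S + (S + 1) * r) = 2 ^ S * (g + 1) ^ r := fun r => by
    rw [pow_add, pow_mul, hg]
  have ht2 : ∀ r, 2 * (g + 1) ^ r ≤ 2 ^ (S + (S + 1) * r) := fun r => by
    rw [ht]
    exact Nat.mul_le_mul_right _ (by
      calc 2 = 2 ^ 1 := rfl
        _ ≤ 2 ^ S := Nat.pow_le_pow_right (by norm_num) (by omega))
  have htop : ∀ r, BS (S + 1) (6 * 2 ^ (S + (S + 1) * r)) := fun r => by
    rw [show 6 * 2 ^ (S + (S + 1) * r) = 3 * 2 ^ ((S + 1) * (r + 1)) by ring]
    exact bs_top _ _ (dvd_mul_right _ _)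
  have hnext : ∀ r, 6 * 2 ^ (S + (S + 1) * (r + 1)) =
      2 ^ (S + 1) * (6 * 2 ^ (S + (S + 1) * r)) := fun r => by ring
  refine H31.KReg.main2 g (6 * 2 ^ S) (by omega) (Nat.mul_pos (by norm_num) (by positivity)) k hk _ h1
    (fun r => Nat.count (fun m => ¬ BS (S + 1) m) (6 * 2 ^ (S + (S + 1) * r) - 1))
    (fun r => Nat.count (BS (S + 1)) (6 * 2 ^ (S + (S + 1) * r))) ?_ ?_ ?_ ?_ ?_
  · intro r
    have := hp r
    have := ht2 r
    have h5 := htop r
    generalize S + (S + 1) * r = t at *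
    simp only [Set.mem_ofPred_eq]
    rw [mod_iff _ _ hR]
    have e1 : h (S + 1) (Nat.count (fun m => ¬ BS (S + 1) m) (6 * 2 ^ t - 1)) = 6 * 2 ^ t - 1 :=
      Nat.nth_count (not_bs_gap _ t _ hR (by omega) (by omega))
    rw [e1, show 6 * 2 ^ t - 1 + 1 = 6 * 2 ^ t by omega]
    intro e2
    have := Nat.nth_mem_of_infinite (inf_zero _ hR)
      (Nat.count (fun m => ¬ BS (S + 1) m) (6 * 2 ^ t - 1) + 1)
    unfold h at e2
    rw [e2] at this
    exact this h5
  · intro r n hn1 hn2
    have := hp r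
    have := ht2 r
    generalize S + (S + 1) * r = t at *
    simp only [Set.mem_ofPred_eq]
    rw [mod_iff _ _ hR, not_not]
    obtain ⟨i, hi⟩ : ∃ i, Nat.count (fun m => ¬ BS (S + 1) m) (6 * 2 ^ t - 1) = n + (i + 1) :=
      ⟨Nat.count (fun m => ¬ BS (S + 1) m) (6 * 2 ^ t - 1) - n - 1, by omega⟩
    by_cases hbig : i + 1 + 1 ≤ 2 ^ t
    · have c1 := count_back (S + 1) t (i + 1) hR hbig
      have c2 := count_back (S + 1) t i hR (by omega)
      have e1 : h (S + 1) n = 6 * 2 ^ t - 1 - (i + 1) := by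
        rw [show n = Nat.count (fun m => ¬ BS (S + 1) m) (6 * 2 ^ t - 1 - (i + 1)) by omega]
        exact Nat.nth_count (not_bs_gap _ t _ hR (by omega) (by omega))
      have e2 : h (S + 1) (n + 1) = 6 * 2 ^ t - 1 - i := by
        rw [show n + 1 = Nat.count (fun m => ¬ BS (S + 1) m) (6 * 2 ^ t - 1 - i) by omega]
        exact Nat.nth_count (not_bs_gap _ t _ hR (by omega) (by omega))
      omega
    · exfalso
      omega
  · intro r
    have := hp r
    have := ht2 r
    have e0 : 6 * 2 ^ S * (g + 1) ^ r = 6 * 2 ^ (S + (S + 1) * r) := by rw [ht, mul_assoc]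
    rw [e0]
    generalize S + (S + 1) * r = t at *
    have c1 := count_sum (S + 1) (6 * 2 ^ t - 1)
    have c2 : Nat.count (BS (S + 1)) (6 * 2 ^ t) = Nat.count (BS (S + 1)) (6 * 2 ^ t - 1) := by
      conv_lhs => rw [show 6 * 2 ^ t = (6 * 2 ^ t - 1) + 1 by omega]
      rw [Nat.count_succ, if_neg (not_bs_gap _ t _ hR (by omega) (by omega)), add_zero]
    omega
  · intro r
    rw [hnext]
    exact (count_pow (S + 1) _ (S + 1) le_rfl).trans (Nat.mul_le_mul_right _ (by omega))
  · intro r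
    induction r with
    | zero => omega
    | succ r ih =>
      have := hp r
      have := ht2 r
      have c1 : Nat.count (BS (S + 1)) (6 * 2 ^ (S + (S + 1) * r) + 1) ≤
          Nat.count (BS (S + 1)) (6 * 2 ^ (S + (S + 1) * (r + 1))) :=
        Nat.count_monotone _ (by
          rw [hnext]
          have : 2 * (6 * 2 ^ (S + (S + 1) * r)) ≤ 2 ^ (S + 1) * (6 * 2 ^ (S + (S + 1) * r)) :=
            Nat.mul_le_mul_right _ (by omega)
          omega)
      rw [Nat.count_succ, if_pos (htop r)] at c1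
      omega

end Pool.Agent.Results.MP_0f6055_nt.Full
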